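import Pool.Agent.Helper13.Sof.Goals

/-!
# Decomposition into irreducible parts (packet DECOMP for MP_1f9cc6_al)
-/

namespace Pool.Agent.Helper99.Sof

open Finset Pool.Agent.Helper13.Sof

noncomputable section

theorem cnt_eq {A : Type} [Fintype A] (P : A → Prop) [DecidablePred P] :
    cnt P = ((univ.filter P).card : ℝ) := by
  unfold cnt
  congr

open Classical in
theorem cnt_le {A : Type} [Fintype A] {P Q : A → Prop} (h : ∀ s, P s → Q s) : cnt P ≤ cnt Q := by
  unfold cnt
  exact_mod_cast card_le_card (fun s hs => by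
    rw [mem_filter] at hs ⊢
    exact ⟨hs.1, h s hs.2⟩)

open Classical in
theorem cnt_flip {A : Type} [Fintype A] (x : Equiv.Perm A) (Q : Finset A) :
    cnt (fun s => s ∉ Q ∧ x s ∈ Q) = cnt (fun s => s ∈ Q ∧ x s ∉ Q) := by
  rw [cnt_eq, cnt_eq]
  have h1 : (univ.filter (fun s => x s ∈ Q)).card = Q.card := by
    apply card_bij (fun s _ => x s)
    · intro s hs
      simpa using hs
    · intro a _ b _ h
      exact x.injective h
    · intro b hb
      exact ⟨x.symm b, by simpa using hb, by simp⟩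
  have h2 : (univ.filter (fun s => x s ∈ Q)).card =
      (univ.filter (fun s => s ∈ Q ∧ x s ∈ Q)).card +
        (univ.filter (fun s => s ∉ Q ∧ x s ∈ Q)).card := by
    rw [← card_filter_add_card_filter_not (s := univ.filter (fun s => x s ∈ Q)) (fun s => s ∈ Q),
      filter_filter, filter_filter]
    congr 2 <;> (apply filter_congr; intro s _; tauto)
  have h3 : Q.card =
      (univ.filter (fun s => s ∈ Q ∧ x s ∈ Q)).card +
        (univ.filter (fun s => s ∈ Q ∧ x s ∉ Q)).card := by
    rw [← card_filter_add_card_filter_not (s := Q) (fun s => x s ∈ Q)]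
    congr 2 <;> (ext s; simp)
  exact_mod_cast (by omega : (univ.filter (fun s => s ∉ Q ∧ x s ∈ Q)).card =
    (univ.filter (fun s => s ∈ Q ∧ x s ∉ Q)).card)

open Classical in
theorem irred_part {n : ℕ} {A : Type} [Fintype A] (ξ : Fin n → Equiv.Perm A) (η t τ : ℝ)
    (ht0 : 0 < t) (ht1 : t < 1) (hτ : 2 * t ≤ τ) (hη : 0 < η) (q q' : A → ℕ)
    (hq : ∀ k : ℕ, (∃ s, q s = k) → ∀ Q : Finset A, Q.Nonempty → (∀ s ∈ Q, k ≤ q s) →
        er ξ (univ.filter (fun s => k ≤ q s)) Q ≤ η * (Q.card : ℝ) →
        cnt (fun s => q s = k) ≤ (Q.card : ℝ)) (s : A)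
    (hs : (((part q' s).filter (fun s' => q s' ≠ q' s')).card : ℝ) ≤ t * ((part q' s).card : ℝ)) :
    Irred ξ (part q' s) (t * η / 2) τ := by
  set B := part q' s with hB
  set k := q' s with hk
  have hBk : ∀ x ∈ B, q' x = k := by
    intro x hx
    rw [hB] at hx
    simpa [part] using hx
  have hBpos : 0 < (B.card : ℝ) := by
    have : 0 < B.card := card_pos.2 ⟨s, by rw [hB]; simp [part]⟩
    exact_mod_cast this
  have hsplit : ((B.filter (fun x => q x ≠ q' x)).card : ℝ) +
      ((B.filter (fun x => q x = k)).card : ℝ) = (B.card : ℝ) := by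
    have h := card_filter_add_card_filter_not (s := B) (fun x => q x = k)
    have h2 : B.filter (fun x => ¬ q x = k) = B.filter (fun x => q x ≠ q' x) := by
      apply filter_congr
      intro x hx
      rw [hBk x hx]
    rw [h2] at h
    have h3 : (((B.filter (fun x => q x = k)).card + (B.filter (fun x => q x ≠ q' x)).card : ℕ) : ℝ)
        = (B.card : ℝ) := by exact_mod_cast h
    push_cast at h3
    linarith
  intro Q hQB hQ
  set R := univ.filter (fun x => k ≤ q x) with hR
  set Q2 := Q.filter (fun x => k ≤ q x) with hQ2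
  have hdiff : (Q.card : ℝ) ≤ (Q2.card : ℝ) + t * (B.card : ℝ) := by
    have h := card_filter_add_card_filter_not (s := Q) (fun x => k ≤ q x)
    have h2 : (Q.filter (fun x => ¬ k ≤ q x)).card ≤ (B.filter (fun x => q x ≠ q' x)).card := by
      apply card_le_card
      intro x hx
      rw [mem_filter] at hx ⊢
      refine ⟨hQB hx.1, ?_⟩
      rw [hBk x (hQB hx.1)]
      intro h
      exact hx.2 h.ge
    have h3 : (Q.card : ℝ) = (Q2.card : ℝ) + ((Q.filter (fun x => ¬ k ≤ q x)).card : ℝ) := by
      rw [hQ2]; exact_mod_cast h.symm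
    have h4 : ((Q.filter (fun x => ¬ k ≤ q x)).card : ℝ) ≤
      ((B.filter (fun x => q x ≠ q' x)).card : ℝ) := by exact_mod_cast h2
    linarith
  by_cases hc : (Q2.card : ℝ) ≤ t * (B.card : ℝ)
  · left
    nlinarith
  · right
    push Not at hc
    have hQ2pos : 0 < (Q2.card : ℝ) := lt_of_le_of_lt (by positivity) hc
    have hQ2ne : Q2.Nonempty := card_pos.1 (by exact_mod_cast hQ2pos)
    have her : er ξ R Q2 ≤ 2 * eb ξ Q := by
      unfold er eb
      rw [mul_sum]
      apply sum_le_sum
      intro i _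
      have h1 : cnt (fun s => s ∈ Q2 ∧ ξ i s ∈ R ∧ ξ i s ∉ Q2) ≤
          cnt (fun s => s ∈ Q ∧ ξ i s ∉ Q) := by
        apply cnt_le
        intro x hx
        rw [hQ2, hR] at hx
        simp only [mem_filter, mem_univ, true_and] at hx
        exact ⟨hx.1.1, fun h => hx.2.2 ⟨h, hx.2.1⟩⟩
      have h2 : cnt (fun s => s ∈ R ∧ s ∉ Q2 ∧ ξ i s ∈ Q2) ≤
          cnt (fun s => s ∉ Q ∧ ξ i s ∈ Q) := by
        apply cnt_le
        intro x hx
        rw [hQ2, hR] at hx
        simp only [mem_filter, mem_univ, true_and] at hx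
        exact ⟨fun h => hx.2.1 ⟨h, hx.1⟩, hx.2.2.1⟩
      rw [cnt_flip] at h2
      linarith
    have hex : ∃ x, q x = k := by
      have : 0 < ((B.filter (fun x => q x = k)).card : ℝ) := by nlinarith
      have h : 0 < (B.filter (fun x => q x = k)).card := by exact_mod_cast this
      obtain ⟨x, hx⟩ := card_pos.1 h
      exact ⟨x, (mem_filter.1 hx).2⟩
    have hmin := hq k hex Q2 hQ2ne (fun x hx => (mem_filter.1 hx).2) (by
      have h5 : 2 * (t * η / 2 * (B.card : ℝ)) ≤ η * (Q2.card : ℝ) := by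
        have := mul_le_mul_of_nonneg_left hc.le hη.le
        linarith
      linarith)
    have hcard : ((B.filter (fun x => q x = k)).card : ℝ) ≤ cnt (fun x => q x = k) := by
      rw [cnt_eq]
      exact_mod_cast card_le_card (fun x hx => by
        rw [mem_filter] at hx ⊢
        exact ⟨mem_univ _, hx.2⟩)
    have hQ2Q : (Q2.card : ℝ) ≤ (Q.card : ℝ) := by
      exact_mod_cast card_le_card (filter_subset _ _)
    nlinarith

open Classical in
theorem few_bad {A : Type} [Fintype A] (t : ℝ) (ht0 : 0 < t) (q q' : A → ℕ) :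
    t * cnt (fun s => ¬ (((part q' s).filter (fun s' => q s' ≠ q' s')).card : ℝ) ≤
      t * ((part q' s).card : ℝ)) ≤ cnt (fun s => q' s ≠ q s) := by
  rw [cnt_eq, cnt_eq]
  set Bd := univ.filter (fun s => ¬ (((part q' s).filter (fun s' => q s' ≠ q' s')).card : ℝ) ≤
      t * ((part q' s).card : ℝ)) with hBd
  set M := univ.filter (fun s => q' s ≠ q s) with hM
  have h1 : Bd.card = ∑ k ∈ univ.image q', (Bd.filter (fun s => q' s = k)).card :=
    card_eq_sum_card_fiberwise (fun s _ => mem_image_of_mem _ (mem_univ s))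
  have h2 : M.card = ∑ k ∈ univ.image q', (M.filter (fun s => q' s = k)).card :=
    card_eq_sum_card_fiberwise (fun s _ => mem_image_of_mem _ (mem_univ s))
  rw [h1, h2]
  push_cast
  rw [mul_sum]
  apply sum_le_sum
  intro k _
  rcases (Bd.filter (fun s => q' s = k)).eq_empty_or_nonempty with he | ⟨s, hs⟩
  · rw [he]
    simp
  · rw [mem_filter] at hs
    obtain ⟨hs1, hs2⟩ := hs
    rw [hBd, mem_filter] at hs1
    have h3 := hs1.2
    push Not at h3
    have h4 : ((Bd.filter (fun s => q' s = k)).card : ℝ) ≤ ((part q' s).card : ℝ) := by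
      exact_mod_cast card_le_card (fun x hx => by
        rw [mem_filter] at hx
        simp only [part, mem_filter, mem_univ, true_and]
        rw [hx.2, hs2])
    have h5 : (part q' s).filter (fun s' => q s' ≠ q' s') = M.filter (fun s => q' s = k) := by
      ext x
      simp only [part, hM, mem_filter, mem_univ, true_and, hs2]
      constructor
      · rintro ⟨h, h'⟩
        exact ⟨fun e => h' e.symm, h⟩
      · rintro ⟨h, h'⟩
        exact ⟨h', fun e => h e.symm⟩
    rw [h5] at h3
    have h6 := mul_le_mul_of_nonneg_left h4 ht0.le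
    linarith

/-- Packet DECOMP. -/
theorem decomp (h1 : SelfImprove) (h2 : Greedy) : Decomp := by
  intro n p hp hnp τ hτ
  set t : ℝ := min τ 1 / 2 with ht
  have ht0 : 0 < t := by
    rw [ht]; positivity
  have ht1 : t < 1 := by
    rw [ht]
    have := min_le_right τ 1
    linarith
  have htτ : 2 * t ≤ τ := by
    rw [ht]
    have := min_le_left τ 1
    linarith
  have hp0 : (0 : ℝ) < p := by exact_mod_cast hp.out.pos
  set η : ℝ := t ^ 2 / (72 * p) with hη
  have hη0 : 0 < η := by rw [hη]; positivity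
  refine ⟨t * η / 2, by positivity, ?_⟩
  intro δ hδ
  obtain ⟨ε, hε, hSI⟩ := h1 n p hnp (min δ (t ^ 2 / 2)) (lt_min hδ (by positivity))
  refine ⟨ε, hε, ?_⟩
  intro A _ S hbad
  obtain ⟨q, hq1, hq2⟩ := h2 n A S.ξ η hη0
  obtain ⟨q', hq'1, hq'2⟩ := hSI A S hbad q
  have hN : (0 : ℝ) ≤ Fintype.card A := by positivity
  refine ⟨q', ?_, ?_⟩
  · exact hq'2.trans (mul_le_mul_of_nonneg_right (min_le_left _ _) hN)
  · have hM : cnt (fun s => q' s ≠ q s) ≤ t ^ 2 * (Fintype.card A : ℝ) := by
      have e1 : 36 * (p : ℝ) * bdry S.ξ q ≤ 36 * (p : ℝ) * (η * (Fintype.card A : ℝ)) :=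
        mul_le_mul_of_nonneg_left hq1 (by positivity)
      have e2 : 36 * (p : ℝ) * (η * (Fintype.card A : ℝ)) = t ^ 2 / 2 * (Fintype.card A : ℝ) := by
        rw [hη]
        field_simp
        ring
      have e3 : min δ (t ^ 2 / 2) * (Fintype.card A : ℝ) ≤ t ^ 2 / 2 * (Fintype.card A : ℝ) :=
        mul_le_mul_of_nonneg_right (min_le_right _ _) hN
      linarith
    have hfew := few_bad t ht0 q q'
    have hle : cnt (fun s => ¬ Irred S.ξ (part q' s) (t * η / 2) τ) ≤
        cnt (fun s => ¬ (((part q' s).filter (fun s' => q s' ≠ q' s')).card : ℝ) ≤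
      t * ((part q' s).card : ℝ)) := by
      apply cnt_le
      intro s hs h
      exact hs (irred_part S.ξ η t τ ht0 ht1 htτ hη0 q q' hq2 s h)
    have h3 : t * cnt (fun s => ¬ Irred S.ξ (part q' s) (t * η / 2) τ) ≤
        t * (t * (Fintype.card A : ℝ)) := by
      have := mul_le_mul_of_nonneg_left hle ht0.le
      nlinarith
    have h4 := le_of_mul_le_mul_left h3 ht0
    have h5 : t * (Fintype.card A : ℝ) ≤ τ * (Fintype.card A : ℝ) :=
      mul_le_mul_of_nonneg_right (by linarith) hN
    linarith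

end

end Pool.Agent.Helper99.Sof
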